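import Pool.Agent.H56.Td.Defs
import Pool.Agent.H56.Td.Ultra

/-!
# MP_22aefb_co, Q1

For every `r ≥ 4` the treedepth of `C_{2r}`-subgraph-free graphs of diameter at most `3` is bounded.

* `SimpleGraph.cycleGraph (2 * r)` is the cycle on `2r` vertices, and `A.Free G` says that no (not
  necessarily induced) subgraph of `G` is isomorphic to `A`.
* `SimpleGraph.ediam G` is the diameter with values in `ℕ ∪ {∞}`.
* `treedepth` is defined in `Pool.Agent.H56.Td.Defs` by rooted forests; the lemma
  `Pool.Agent.H56.Td.treedepth_attained` shows that for finite graphs it is attained by a forest.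
-/

set_option autoImplicit false

namespace Pool.Agent.Results.MP_22aefb_co.EvenCycleTreedepth

open Pool.Agent.H56.Td

/-- For every integer `r ≥ 4` there is a constant `c` such that every finite
`C_{2r}`-subgraph-free graph of diameter at most `3` has treedepth at most `c`. -/
theorem result : ∀ r : ℕ, 4 ≤ r → ∃ c : ℕ, ∀ (V : Type) [Finite V] (G : SimpleGraph V),
    (SimpleGraph.cycleGraph (2 * r)).Free G → G.ediam ≤ 3 → treedepth G ≤ c :=
  fun r hr => main r hr

end Pool.Agent.Results.MP_22aefb_co.EvenCycleTreedepth
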